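import Mathlib

/-!
# A log-convexity inequality for factorials

For `1 ≤ a ≤ d ≤ n`:
`∑_{t < a n} log (⌊t/d⌋ + 1) + a n log(d!)/d ≤ a log n! + n log a!`.
-/

set_option autoImplicit false

open Finset Real

namespace Pool.Agent.R859.BM

/-- `(m+1)/(m!)^{1/m}` is increasing, in logarithmic form and multiplied out. -/
theorem D_nonneg (m : ℕ) :
    ((m : ℝ) * (m + 2)) * log (m + 1) ≤ log (m.factorial : ℝ) + ((m : ℝ) * (m + 1)) * log (m + 2) := by
  induction m with
  | zero => simp
  | succ m ih =>
    have hm : (0 : ℝ) ≤ m := Nat.cast_nonneg m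
    have h1 : log (((m + 1).factorial : ℕ) : ℝ) = log (m + 1) + log (m.factorial : ℝ) := by
      rw [Nat.factorial_succ, Nat.cast_mul, log_mul (by positivity) (by positivity)]
      push_cast
      ring
    rw [h1]
    push_cast
    have e2 : (m : ℝ) + 1 + 2 = m + 3 := by ring
    have e1 : (m : ℝ) + 1 + 1 = m + 2 := by ring
    rw [e2, e1]
    -- need (m+1)*(log(m+1)+log(m+3)-2 log(m+2)) + (log(m+3)-log(m+2)) ≥ 0
    have k1 : log ((m : ℝ) + 3) - log (m + 2) ≥ 1 / (m + 3) := by
      have := one_sub_inv_le_log_of_pos (x := ((m : ℝ) + 3) / (m + 2)) (by positivity)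
      rw [log_div (by positivity) (by positivity)] at this
      have h3 : 1 - (((m : ℝ) + 3) / (m + 2))⁻¹ = 1 / (m + 3) := by
        field_simp
        ring
      rw [h3] at this
      exact this
    have k2 : log ((m : ℝ) + 1) + log (m + 3) - 2 * log (m + 2) ≥ - (1 / ((m + 1) * (m + 3))) := by
      have := one_sub_inv_le_log_of_pos
        (x := (((m : ℝ) + 1) * (m + 3)) / ((m + 2) * (m + 2))) (by positivity)
      rw [log_div (by positivity) (by positivity), log_mul (by positivity) (by positivity),
        log_mul (by positivity) (by positivity)] at this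
      have h3 : 1 - ((((m : ℝ) + 1) * (m + 3)) / ((m + 2) * (m + 2)))⁻¹ =
          - (1 / ((m + 1) * (m + 3))) := by
        field_simp
        ring
      rw [h3] at this
      linarith
    have k3 : ((m : ℝ) + 1) * (log ((m : ℝ) + 1) + log (m + 3) - 2 * log (m + 2)) ≥
        - (1 / (m + 3)) := by
      have := mul_le_mul_of_nonneg_left k2 (show (0 : ℝ) ≤ m + 1 by positivity)
      have h4 : ((m : ℝ) + 1) * - (1 / ((m + 1) * (m + 3))) = - (1 / (m + 3)) := by
        field_simp
      linarith
    have k4 : ((m : ℝ) + 1) * (((m : ℝ) + 1) * (log ((m : ℝ) + 1) + log (m + 3) - 2 * log (m + 2))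
        + (log ((m : ℝ) + 3) - log (m + 2))) ≥ 0 := by
      apply mul_nonneg (by positivity)
      linarith
    nlinarith [k4, ih]

/-- `log(m+1) - log(m!)/m` is monotone for `m ≥ 1`. -/
theorem mono_one (m : ℕ) (hm : 1 ≤ m) :
    log ((m : ℝ) + 1) - log (m.factorial : ℝ) / m ≤
      log (((m + 1 : ℕ) : ℝ) + 1) - log ((m + 1).factorial : ℝ) / ((m + 1 : ℕ) : ℝ) := by
  have h := D_nonneg m
  have hm' : (1 : ℝ) ≤ m := by exact_mod_cast hm
  have h1 : log (((m + 1).factorial : ℕ) : ℝ) = log (m + 1) + log (m.factorial : ℝ) := by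
    rw [Nat.factorial_succ, Nat.cast_mul, log_mul (by positivity) (by positivity)]
    push_cast
    ring
  rw [h1]
  push_cast
  have e1 : (m : ℝ) + 1 + 1 = m + 2 := by ring
  rw [e1]
  rw [← sub_nonneg]
  have h2 : log ((m : ℝ) + 2) - (log (m + 1) + log (m.factorial : ℝ)) / (m + 1) -
      (log ((m : ℝ) + 1) - log (m.factorial : ℝ) / m) =
      (log (m.factorial : ℝ) + ((m : ℝ) * (m + 1)) * log (m + 2) -
        ((m : ℝ) * (m + 2)) * log (m + 1)) / (m * (m + 1)) := by
    field_simp
    ring
  rw [h2]
  apply div_nonneg _ (by positivity)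
  linarith

theorem mono_all {a d : ℕ} (ha : 1 ≤ a) (had : a ≤ d) :
    log ((a : ℝ) + 1) - log (a.factorial : ℝ) / a ≤
      log ((d : ℝ) + 1) - log (d.factorial : ℝ) / d := by
  induction d, had using Nat.le_induction with
  | base => exact le_rfl
  | succ m hm ih =>
    exact ih.trans (mono_one m (ha.trans hm))

/-- `W d m = d φ(m/d)` where `φ` is the piecewise linear interpolation of `log x!` -/
noncomputable def W (d m : ℕ) : ℝ := ∑ t ∈ range m, log (((t / d + 1 : ℕ)) : ℝ)

theorem W_succ (d m : ℕ) : W d (m + 1) = W d m + log (((m / d + 1 : ℕ)) : ℝ) := by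
  rw [W, W, Finset.sum_range_succ]

theorem W_add (d m a : ℕ) :
    W d (m + a) = W d m + ∑ u ∈ range a, log ((((m + u) / d + 1 : ℕ)) : ℝ) := by
  rw [W, W, Finset.sum_range_add]

theorem W_mul {d : ℕ} (hd : 1 ≤ d) (q : ℕ) : W d (d * q) = d * log (q.factorial : ℝ) := by
  induction q with
  | zero => simp [W]
  | succ q ih =>
    rw [mul_add, mul_one, W_add, ih]
    have h : ∑ u ∈ range d, log ((((d * q + u) / d + 1 : ℕ)) : ℝ) =
        ∑ u ∈ range d, log (((q + 1 : ℕ)) : ℝ) := by
      refine Finset.sum_congr rfl fun u hu => ?_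
      have hu' := Finset.mem_range.1 hu
      have : (d * q + u) / d = q := by
        rw [Nat.mul_add_div (by omega), Nat.div_eq_of_lt hu']
        omega
      rw [this]
    rw [h, Finset.sum_const, Finset.card_range, nsmul_eq_mul, Nat.factorial_succ, Nat.cast_mul,
      log_mul (by positivity) (by positivity)]
    ring

/-- the tangent line inequality -/
theorem W_tangent {d : ℕ} (hd : 1 ≤ d) (q m : ℕ) :
    d * log (q.factorial : ℝ) + ((m : ℝ) - d * q) * log ((q : ℝ) + 1) ≤ W d m := by
  rw [← W_mul hd q]
  rcases le_total (d * q) m with h | h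
  · induction m, h using Nat.le_induction with
    | base => push_cast; simp
    | succ m hm ih =>
      rw [W_succ]
      have : log ((q : ℝ) + 1) ≤ log (((m / d + 1 : ℕ)) : ℝ) := by
        apply log_le_log (by positivity)
        have : q ≤ m / d := by
          rw [Nat.le_div_iff_mul_le (by omega)]
          rw [mul_comm]; exact hm
        exact_mod_cast Nat.succ_le_succ this
      push_cast at this ⊢
      linarith
  · -- m ≤ d q
    obtain ⟨e, he⟩ := Nat.exists_eq_add_of_le h
    rw [he]
    have hcast : ((m : ℝ) - d * q) = - (e : ℝ) := by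
      have : ((d * q : ℕ) : ℝ) = m + e := by rw [he]; push_cast; ring
      push_cast at this
      linarith
    rw [hcast, W_add]
    have : ∑ u ∈ range e, log ((((m + u) / d + 1 : ℕ)) : ℝ) ≤ ∑ u ∈ range e, log ((q : ℝ) + 1) := by
      refine Finset.sum_le_sum fun u hu => ?_
      have hu' := Finset.mem_range.1 hu
      apply log_le_log (by positivity)
      have : (m + u) / d < q := by
        rw [Nat.div_lt_iff_lt_mul (by omega)]
        rw [mul_comm]; omega
      have h3 : (m + u) / d + 1 ≤ q + 1 := by omega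
      exact_mod_cast h3
    rw [Finset.sum_const, Finset.card_range, nsmul_eq_mul] at this
    linarith

/-- averaging the floor function -/
theorem sum_floor_le {a d : ℕ} (ha : 1 ≤ a) (had : a ≤ d) (m : ℕ) :
    d * ∑ u ∈ range a, (m + u) / d ≤ a * m := by
  have hd : 0 < d := by omega
  set Q := m / d with hQ
  set R := m % d with hR
  have hm : m = d * Q + R := (Nat.div_add_mod m d).symm
  have hRd : R < d := Nat.mod_lt _ hd
  have key : ∀ b, b ≤ a → ∑ u ∈ range b, (m + u) / d = b * Q + (b - (d - R)) := by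
    intro b
    induction b with
    | zero => intro _; simp
    | succ b ih =>
      intro hb
      rw [Finset.sum_range_succ, ih (by omega)]
      by_cases hc : R + b < d
      · have h1 : (m + b) / d = Q := by
          rw [hm, add_assoc, Nat.mul_add_div hd, Nat.div_eq_of_lt hc]
          omega
        rw [h1]
        have e1 : b - (d - R) = 0 := by omega
        have e2 : b + 1 - (d - R) = 0 := by omega
        rw [e1, e2]; ring
      · have h1 : (m + b) / d = Q + 1 := by
          have h2 : m + b = d * (Q + 1) + (R + b - d) := by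
            rw [hm, mul_add]; omega
          rw [h2, Nat.mul_add_div hd, Nat.div_eq_of_lt (by omega)]
        rw [h1]
        have e1 : b + 1 - (d - R) = b - (d - R) + 1 := by omega
        rw [e1]; ring
  rw [key a le_rfl]
  by_cases hc : a ≤ d - R
  · have : a - (d - R) = 0 := by omega
    rw [this, hm]
    nlinarith
  · push Not at hc
    obtain ⟨x, hx⟩ := Nat.exists_eq_add_of_lt hc
    have e1 : a - (d - R) = x + 1 := by omega
    rw [e1]
    obtain ⟨y, hy⟩ := Nat.exists_eq_add_of_lt hRd
    obtain ⟨z, hz⟩ := Nat.exists_eq_add_of_le had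
    -- d = R + y + 1 ; d = a + z; a = d - R + x + 1
    have e2 : a = y + 1 + (x + 1) := by omega
    have e3 : d * (x + 1) ≤ a * R := by
      have e4 : R = z + (x + 1) := by omega
      have e5 : d = a + z := hz
      rw [e5, e4]
      -- (a+z)(x+1) ≤ a (z + x + 1) ⟺ z (x+1) ≤ a z
      have : z * (x + 1) ≤ a * z := by
        rw [mul_comm z]; exact Nat.mul_le_mul_right _ (by omega)
      nlinarith
    rw [hm]
    nlinarith

/-- one step of the induction -/
theorem step {a d n : ℕ} (ha : 1 ≤ a) (had : a ≤ d) (hdn : d ≤ n) :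
    ∑ u ∈ range a, log ((((a * n + u) / d + 1 : ℕ)) : ℝ) ≤
      a * log ((n : ℝ) + 1) + log (a.factorial : ℝ) - a * (log (d.factorial : ℝ) / d) := by
  have hd : (0 : ℝ) < d := by exact_mod_cast (show 0 < d by omega)
  have haR : (0 : ℝ) < a := by exact_mod_cast (show 0 < a by omega)
  set y0 : ℝ := (a : ℝ) * n / d + 1 with hy0
  have hy0pos : 0 < y0 := by positivity
  have h1 : ∀ u ∈ range a, log ((((a * n + u) / d + 1 : ℕ)) : ℝ) ≤
      log y0 + ((((a * n + u) / d + 1 : ℕ)) : ℝ) / y0 - 1 := by
    intro u _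
    have hpos : (0 : ℝ) < ((((a * n + u) / d + 1 : ℕ)) : ℝ) := by positivity
    have := log_le_sub_one_of_pos (x := ((((a * n + u) / d + 1 : ℕ)) : ℝ) / y0) (by positivity)
    rw [log_div hpos.ne' hy0pos.ne'] at this
    linarith
  have h2 : ∑ u ∈ range a, ((((a * n + u) / d + 1 : ℕ)) : ℝ) ≤ a * y0 := by
    have h3 := sum_floor_le ha had (a * n)
    have h4 : (d : ℝ) * ∑ u ∈ range a, (((a * n + u) / d : ℕ) : ℝ) ≤ a * (a * n) := by
      exact_mod_cast h3
    have h5 : ∑ u ∈ range a, (((a * n + u) / d : ℕ) : ℝ) ≤ a * (a * n) / d := by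
      rw [le_div_iff₀ hd]
      linarith
    have h6 : ∑ u ∈ range a, ((((a * n + u) / d + 1 : ℕ)) : ℝ) =
        ∑ u ∈ range a, (((a * n + u) / d : ℕ) : ℝ) + a := by
      rw [show (a : ℝ) = ∑ _u ∈ range a, (1 : ℝ) by simp, ← Finset.sum_add_distrib]
      refine Finset.sum_congr rfl fun u _ => ?_
      push_cast
      simp
    rw [h6, hy0]
    have : (a : ℝ) * (a * n / d + 1) = a * (a * n) / d + a := by
      field_simp
    rw [this]
    linarith
  have h3 : ∑ u ∈ range a, log ((((a * n + u) / d + 1 : ℕ)) : ℝ) ≤ a * log y0 := by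
    refine (Finset.sum_le_sum h1).trans ?_
    rw [Finset.sum_sub_distrib, Finset.sum_add_distrib, ← Finset.sum_div]
    simp only [Finset.sum_const, Finset.card_range, nsmul_eq_mul, mul_one]
    have : (∑ u ∈ range a, ((((a * n + u) / d + 1 : ℕ)) : ℝ)) / y0 ≤ a := by
      rw [div_le_iff₀ hy0pos]
      exact h2
    linarith
  refine h3.trans ?_
  have h4 : y0 ≤ ((n : ℝ) + 1) * (a + 1) / (d + 1) := by
    rw [hy0, le_div_iff₀ (by positivity), ← sub_nonneg]
    have hx : (a : ℝ) ≤ d := by exact_mod_cast had
    have hy : (d : ℝ) ≤ n := by exact_mod_cast hdn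
    have : ((n : ℝ) + 1) * (a + 1) - (a * n / d + 1) * (d + 1) = (d - a) * (n - d) / d := by
      field_simp
      ring
    rw [this]
    apply div_nonneg _ hd.le
    apply mul_nonneg <;> linarith
  have h5 : log y0 ≤ log ((n : ℝ) + 1) + log ((a : ℝ) + 1) - log ((d : ℝ) + 1) := by
    have := log_le_log hy0pos h4
    rwa [log_div (by positivity) (by positivity), log_mul (by positivity) (by positivity)] at this
  have h6 := mono_all ha had
  have h7 : (a : ℝ) * (log ((a : ℝ) + 1) - log (a.factorial : ℝ) / a) =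
      a * log ((a : ℝ) + 1) - log (a.factorial : ℝ) := by
    field_simp
  have h8 := mul_le_mul_of_nonneg_left h6 haR.le
  rw [h7] at h8
  have h9 := mul_le_mul_of_nonneg_left h5 haR.le
  nlinarith [h8, h9]

/-- the main inequality -/
theorem main_ineq {a d n : ℕ} (ha : 1 ≤ a) (had : a ≤ d) (hdn : d ≤ n) :
    W d (a * n) + a * n * (log (d.factorial : ℝ) / d) ≤
      a * log (n.factorial : ℝ) + n * log (a.factorial : ℝ) := by
  induction n, hdn using Nat.le_induction with
  | base =>
    rw [mul_comm a d, W_mul (by omega)]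
    have hd : (0 : ℝ) < d := by exact_mod_cast (show 0 < d by omega)
    have : (a : ℝ) * d * (log (d.factorial : ℝ) / d) = a * log (d.factorial : ℝ) := by
      field_simp
    rw [this]; linarith
  | succ n hn ih =>
    have h := step ha had hn
    rw [mul_add, mul_one, W_add]
    have h1 : log (((n + 1).factorial : ℕ) : ℝ) = log (n + 1) + log (n.factorial : ℝ) := by
      rw [Nat.factorial_succ, Nat.cast_mul, log_mul (by positivity) (by positivity)]
      push_cast
      ring
    rw [h1]
    push_cast at ih h ⊢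
    nlinarith [ih, h]

/-- the inequality used below, for each variable -/
theorem per_var {a d n : ℕ} (q : ℕ) (had : a ≤ d) (hdn : d ≤ n) (hn : 1 ≤ n) :
    a * (log (d.factorial : ℝ) / d) - log (a.factorial : ℝ) ≤
      a * (log (n.factorial : ℝ) / n - log ((q : ℝ) + 1)) +
        (d / n) * (q * log ((q : ℝ) + 1) - log (q.factorial : ℝ)) := by
  have hnR : (0 : ℝ) < n := by exact_mod_cast (show 0 < n by omega)
  rcases Nat.eq_zero_or_pos a with h0 | hpos
  · subst h0
    simp only [Nat.cast_zero, zero_mul, Nat.factorial_zero, Nat.cast_one, log_one, sub_zero,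
      zero_add]
    apply mul_nonneg (by positivity)
    have h : log (q.factorial : ℝ) ≤ log (((q : ℝ) + 1) ^ q) := by
      apply log_le_log (by positivity)
      have : q.factorial ≤ (q + 1) ^ q :=
        (Nat.factorial_le_pow q).trans (Nat.pow_le_pow_left (Nat.le_succ q) q)
      exact_mod_cast this
    rw [log_pow] at h
    linarith
  · have h1 := main_ineq (show 1 ≤ a from hpos) had hdn
    have h2 := W_tangent (d := d) (by omega) q (a * n)
    have h3 : d * log (q.factorial : ℝ) + (((a * n : ℕ) : ℝ) - d * q) * log ((q : ℝ) + 1) +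
        a * n * (log (d.factorial : ℝ) / d) ≤
        a * log (n.factorial : ℝ) + n * log (a.factorial : ℝ) := by linarith
    push_cast at h3
    have h4 : (n : ℝ) * (a * (log (d.factorial : ℝ) / d) - log (a.factorial : ℝ)) ≤
      n * (a * (log (n.factorial : ℝ) / n - log ((q : ℝ) + 1)) +
        (d / n) * (q * log ((q : ℝ) + 1) - log (q.factorial : ℝ))) := by
      have e1 : (n : ℝ) * (a * (log (n.factorial : ℝ) / n - log ((q : ℝ) + 1)) +
        (d / n) * (q * log ((q : ℝ) + 1) - log (q.factorial : ℝ))) =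
        a * log (n.factorial : ℝ) - a * n * log ((q : ℝ) + 1) +
          d * (q * log ((q : ℝ) + 1) - log (q.factorial : ℝ)) := by
        field_simp
      rw [e1]
      nlinarith [h3]
    exact le_of_mul_le_mul_left h4 hnR

end Pool.Agent.R859.BM
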