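import Pool.Agent.Y372.PC.Breg
import Pool.Agent.R859.BM.Ineq

/-!
# Coefficients of products of sums of distinct variables

The coefficient of a monomial in `∏ i, ∑ j ∈ A i, X j`, all `A i` of size `k`, is at most the
balanced multinomial coefficient.
-/

set_option autoImplicit false

open Finset Real Pool.Agent.Y372.PC

namespace Pool.Agent.R859.BM

/-- functions choosing an element of each `A i`, with prescribed fibre sizes -/
def ch {n r : ℕ} (A : Fin n → Finset (Fin r)) (α : Fin r → ℕ) : Finset (Fin n → Fin r) :=
  (Fintype.piFinset A).filter fun f => ∀ j, (univ.filter fun i => f i = j).card = α j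

theorem coeff_prod {n r : ℕ} (A : Fin n → Finset (Fin r)) (α : Fin r →₀ ℕ) :
    MvPolynomial.coeff α (∏ i, ∑ j ∈ A i, (MvPolynomial.X j : MvPolynomial (Fin r) ℕ)) =
      (ch A α).card := by
  classical
  rw [Finset.prod_univ_sum, MvPolynomial.coeff_sum, ch, Finset.card_filter]
  refine Finset.sum_congr rfl fun f _ => ?_
  have h1 : (∏ i, (MvPolynomial.X (f i) : MvPolynomial (Fin r) ℕ)) =
      MvPolynomial.monomial (∑ i, Finsupp.single (f i) 1) 1 := by
    rw [MvPolynomial.monomial_sum_one]
    rfl
  rw [h1, MvPolynomial.coeff_monomial]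
  have h2 : (∑ i, Finsupp.single (f i) 1 = α) ↔
      (∀ j, (univ.filter fun i => f i = j).card = α j) := by
    rw [DFunLike.ext_iff]
    refine forall_congr' fun j => ?_
    rw [Finsupp.finsetSum_apply, Finset.card_filter]
    simp only [Finsupp.single_apply]
  simp only [h2]

/-- the permutations carrying one choice function to another with the same fibre sizes -/
theorem card_perm {n r : ℕ} (f f0 : Fin n → Fin r) (α : Fin r → ℕ)
    (hf : ∀ j, (univ.filter fun i => f i = j).card = α j)
    (hf0 : ∀ j, (univ.filter fun i => f0 i = j).card = α j) :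
    (univ.filter fun c : Equiv.Perm (Fin n) => ∀ t, f (c t) = f0 t).card =
      ∏ j, (α j).factorial := by
  classical
  have hfib : ∀ j, Nonempty ({ a // f0 a = j } ≃ { b // f b = j }) := by
    intro j
    rw [← Fintype.card_eq, Fintype.card_subtype, Fintype.card_subtype, hf j, hf0 j]
  let e : ∀ j, { a // f0 a = j } ≃ { b // f b = j } := fun j => (hfib j).some
  let c0 : Equiv.Perm (Fin n) := Equiv.ofFiberEquiv e
  have hc0 : ∀ t, f (c0 t) = f0 t := fun t => Equiv.ofFiberEquiv_map e t
  have hst := DomMulAct.stabilizer_card f0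
  have h1 : Fintype.card {g : Equiv.Perm (Fin n) // f0 ∘ g = f0} = ∏ j, (α j).factorial := by
    rw [hst]
    refine Finset.prod_congr rfl fun j _ => ?_
    rw [Fintype.card_subtype, hf0 j]
  rw [← h1, Fintype.card_subtype]
  symm
  refine Finset.card_bij (fun g _ => g.trans c0) ?_ ?_ ?_
  · intro g hg
    rw [Finset.mem_filter] at hg ⊢
    refine ⟨Finset.mem_univ _, fun t => ?_⟩
    rw [Equiv.trans_apply, hc0]
    exact congrFun hg.2 t
  · intro g _ g' _ h
    ext t
    have := congrArg (fun c : Equiv.Perm (Fin n) => c0.symm (c t)) h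
    simp only [Equiv.trans_apply, Equiv.symm_apply_apply] at this
    rw [this]
  · intro c hc
    rw [Finset.mem_filter] at hc
    refine ⟨c.trans c0.symm, ?_, ?_⟩
    · rw [Finset.mem_filter]
      refine ⟨Finset.mem_univ _, ?_⟩
      funext t
      simp only [Function.comp_apply, Equiv.trans_apply]
      rw [← hc0, Equiv.apply_symm_apply]
      exact hc.2 t
    · ext t
      simp

/-- the choice functions times the column symmetries inject into the admissible permutations -/
theorem mul_le_adm {n r : ℕ} (A : Fin n → Finset (Fin r)) (α : Fin r → ℕ) (f0 : Fin n → Fin r)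
    (hf0 : ∀ j, (univ.filter fun i => f0 i = j).card = α j) :
    (ch A α).card * ∏ j, (α j).factorial ≤
      (adm fun t => univ.filter fun i => f0 t ∈ A i).card := by
  classical
  have h1 : (ch A α).card * ∏ j, (α j).factorial =
      ∑ f ∈ ch A α, (univ.filter fun c : Equiv.Perm (Fin n) => ∀ t, f (c t) = f0 t).card := by
    have h0 : ∀ f ∈ ch A α,
        (univ.filter fun c : Equiv.Perm (Fin n) => ∀ t, f (c t) = f0 t).card =
          ∏ j, (α j).factorial :=
      fun f hf => card_perm f f0 α (Finset.mem_filter.1 hf).2 hf0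
    rw [Finset.sum_congr rfl h0, Finset.sum_const, smul_eq_mul]
  rw [h1, ← Finset.card_biUnion]
  · apply Finset.card_le_card
    intro c hc
    rw [Finset.mem_biUnion] at hc
    obtain ⟨f, hf, hc⟩ := hc
    have hc' := (Finset.mem_filter.1 hc).2
    have hf' := Fintype.mem_piFinset.1 (Finset.mem_filter.1 hf).1
    refine Finset.mem_filter.2 ⟨Finset.mem_univ _, fun t => ?_⟩
    refine Finset.mem_filter.2 ⟨Finset.mem_univ _, ?_⟩
    rw [← hc' t]
    exact hf' (c t)
  · intro f _ g _ hfg
    rw [Function.onFun, Finset.disjoint_left]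
    intro c hc hc2
    apply hfg
    have h3 := (Finset.mem_filter.1 hc).2
    have h4 := (Finset.mem_filter.1 hc2).2
    funext i
    have h5 := h3 (c.symm i)
    have h6 := h4 (c.symm i)
    rw [Equiv.apply_symm_apply] at h5 h6
    rw [h5, h6]

/-- The multinomial coefficient with `k` parts summing to `n` which are as equal as possible:
with `n = q k + s`, `0 ≤ s < k`, it is `n! / ((q+1)!^s q!^(k-s))`. -/
def balanced (n k : ℕ) : ℕ :=
  n.factorial / ((n / k + 1).factorial ^ (n % k) * (n / k).factorial ^ (k - n % k))

theorem log_bound {n k r : ℕ} (hk : 1 ≤ k) (hn : 1 ≤ n) (A : Fin n → Finset (Fin r))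
    (hA : ∀ i, (A i).card = k) (α : Fin r → ℕ) (hne : (ch A α).Nonempty) :
    ((ch A α).card : ℝ) * (((n / k + 1).factorial : ℝ) ^ (n % k) *
      ((n / k).factorial : ℝ) ^ (k - n % k)) ≤ (n.factorial : ℝ) := by
  classical
  obtain ⟨f0, hf0⟩ := hne
  have hfib := (Finset.mem_filter.1 hf0).2
  have hmem := Fintype.mem_piFinset.1 (Finset.mem_filter.1 hf0).1
  set d : Fin r → ℕ := fun j => (univ.filter fun i => j ∈ A i).card with hd
  set q := n / k with hq
  set s := n % k with hs
  have hqs : k * q + s = n := Nat.div_add_mod n k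
  have hsk : s < k := Nat.mod_lt _ hk
  have hN : 0 < (ch A α).card := Finset.card_pos.2 ⟨f0, hf0⟩
  have hαsum : ∑ j, α j = n := by
    rw [← Finset.sum_congr rfl fun j _ => hfib j]
    have := Finset.card_eq_sum_card_fiberwise (f := f0) (s := (univ : Finset (Fin n)))
      (t := (univ : Finset (Fin r))) (fun _ _ => Finset.mem_univ _)
    rw [← this, Finset.card_univ, Fintype.card_fin]
  have hdsum : ∑ j, d j = n * k := by
    have h1 : ∑ j, d j = ∑ i, (A i).card := by
      simp only [hd, Finset.card_filter]
      rw [Finset.sum_comm]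
      refine Finset.sum_congr rfl fun i _ => ?_
      simp
    rw [h1, Finset.sum_congr rfl fun i _ => hA i, Finset.sum_const, Finset.card_univ,
      Fintype.card_fin, smul_eq_mul]
  have hαd : ∀ j, α j ≤ d j := by
    intro j
    rw [← hfib j]
    apply Finset.card_le_card
    intro i hi
    rw [Finset.mem_filter] at hi ⊢
    exact ⟨Finset.mem_univ _, hi.2 ▸ hmem i⟩
  have hdn : ∀ j, d j ≤ n := by
    intro j
    have := Finset.card_le_univ (univ.filter fun i : Fin n => j ∈ A i)
    rwa [Fintype.card_fin] at this
  have h1 := mul_le_adm A α f0 hfib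
  have h2 := bregman (fun t => univ.filter fun i : Fin n => f0 t ∈ A i)
  have h3 : ∑ t : Fin n, log (((univ.filter fun i : Fin n => f0 t ∈ A i).card.factorial : ℕ) : ℝ) /
      ((univ.filter fun i : Fin n => f0 t ∈ A i).card : ℝ) =
      ∑ j, α j * (log ((d j).factorial : ℝ) / d j) := by
    have h4 : ∀ t : Fin n, log (((univ.filter fun i : Fin n => f0 t ∈ A i).card.factorial : ℕ) : ℝ) /
      ((univ.filter fun i : Fin n => f0 t ∈ A i).card : ℝ) =
        (fun j => log ((d j).factorial : ℝ) / d j) (f0 t) := fun t => rfl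
    rw [Finset.sum_congr rfl fun t _ => h4 t]
    rw [← Finset.sum_fiberwise (univ : Finset (Fin n)) f0]
    refine Finset.sum_congr rfl fun j _ => ?_
    rw [Finset.sum_congr rfl (g := fun _ => log ((d j).factorial : ℝ) / d j)]
    · rw [Finset.sum_const, hfib j, nsmul_eq_mul]
    · intro t ht
      rw [(Finset.mem_filter.1 ht).2]
  rw [h3] at h2
  -- take logarithms
  have h5 : log ((ch A α).card : ℝ) ≤
      ∑ j, (α j * (log ((d j).factorial : ℝ) / d j) - log ((α j).factorial : ℝ)) := by
    have h6 : ((ch A α).card : ℝ) * ∏ j, ((α j).factorial : ℝ) ≤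
        Real.exp (∑ j, α j * (log ((d j).factorial : ℝ) / d j)) := by
      refine le_trans ?_ h2
      exact_mod_cast h1
    have hN' : (0 : ℝ) < ((ch A α).card : ℝ) := by exact_mod_cast hN
    have hP : (0 : ℝ) < ∏ j, ((α j).factorial : ℝ) := by
      apply Finset.prod_pos
      intro j _
      positivity
    have h7 := Real.log_le_log (by positivity) h6
    rw [Real.log_exp, Real.log_mul hN'.ne' hP.ne', Real.log_prod] at h7
    · rw [Finset.sum_sub_distrib]
      linarith
    · intro j _
      positivity
  have h8 : ∑ j, (α j * (log ((d j).factorial : ℝ) / d j) - log ((α j).factorial : ℝ)) ≤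
      ∑ j, (α j * (log (n.factorial : ℝ) / n - log ((q : ℝ) + 1)) +
        (d j / n) * (q * log ((q : ℝ) + 1) - log (q.factorial : ℝ))) :=
    Finset.sum_le_sum fun j _ => per_var q (hαd j) (hdn j) hn
  have hnR : (0 : ℝ) < n := by exact_mod_cast (show 0 < n by omega)
  have h9 : ∑ j, (α j * (log (n.factorial : ℝ) / n - log ((q : ℝ) + 1)) +
        ((d j : ℝ) / n) * (q * log ((q : ℝ) + 1) - log (q.factorial : ℝ))) =
      log (n.factorial : ℝ) - s * log ((q : ℝ) + 1) - k * log (q.factorial : ℝ) := by
    rw [Finset.sum_add_distrib, ← Finset.sum_mul, ← Finset.sum_mul, ← Finset.sum_div]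
    have e1 : ∑ j, (α j : ℝ) = n := by exact_mod_cast hαsum
    have e2 : ∑ j, (d j : ℝ) = n * k := by exact_mod_cast hdsum
    rw [e1, e2]
    have e3 : (n : ℝ) = k * q + s := by exact_mod_cast hqs.symm
    have e4 : (n : ℝ) * k / n = k := by field_simp
    rw [e4]
    have e5 : (n : ℝ) * (log (n.factorial : ℝ) / n - log ((q : ℝ) + 1)) =
        log (n.factorial : ℝ) - n * log ((q : ℝ) + 1) := by field_simp
    rw [e5]
    rw [show (n : ℝ) * log ((q : ℝ) + 1) = (k * q + s) * log ((q : ℝ) + 1) by rw [← e3]]
    ring
  have h10 : log ((ch A α).card : ℝ) ≤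
      log (n.factorial : ℝ) - s * log ((q : ℝ) + 1) - k * log (q.factorial : ℝ) := by
    linarith
  have hN' : (0 : ℝ) < ((ch A α).card : ℝ) := by exact_mod_cast hN
  rw [← Real.log_le_log_iff (by positivity) (by positivity)]
  rw [Real.log_mul hN'.ne' (by positivity), Real.log_mul (by positivity) (by positivity),
    Real.log_pow, Real.log_pow]
  have e6 : log (((q + 1).factorial : ℕ) : ℝ) = log ((q : ℝ) + 1) + log (q.factorial : ℝ) := by
    rw [Nat.factorial_succ, Nat.cast_mul, log_mul (by positivity) (by positivity)]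
    push_cast
    ring
  rw [e6, Nat.cast_sub hsk.le]
  nlinarith [h10]

theorem card_ch_le {n k r : ℕ} (hk : 1 ≤ k) (A : Fin n → Finset (Fin r))
    (hA : ∀ i, (A i).card = k) (α : Fin r → ℕ) :
    (ch A α).card ≤ balanced n k := by
  rcases (ch A α).eq_empty_or_nonempty with h | h
  · rw [h]; simp
  rcases Nat.eq_zero_or_pos n with hn | hn
  · subst hn
    have h1 : (ch A α).card ≤ 1 := by
      have := Finset.card_le_univ (ch A α)
      simpa using this
    refine h1.trans ?_
    simp [balanced]
  · rw [balanced, Nat.le_div_iff_mul_le (by positivity)]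
    have := log_bound hk hn A hA α h
    exact_mod_cast this

/-- the balanced multinomial coefficient is a multinomial coefficient -/
theorem balanced_eq_multinomial (n k : ℕ) (hk : 1 ≤ k) :
    balanced n k = Nat.multinomial (univ : Finset (Fin k))
      (fun i => if i.val < n % k then n / k + 1 else n / k) := by
  classical
  have hsk : n % k < k := Nat.mod_lt _ hk
  have hc : (univ.filter fun i : Fin k => i.val < n % k).card = n % k := by
    rw [Fin.card_filter_val_lt]; omega
  have hc2 : (univ.filter fun i : Fin k => ¬ i.val < n % k).card = k - n % k := by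
    have := Finset.card_filter_add_card_filter_not (s := (univ : Finset (Fin k)))
      (fun i : Fin k => i.val < n % k)
    rw [hc, Finset.card_univ, Fintype.card_fin] at this
    omega
  rw [Nat.multinomial, balanced]
  have h1 : ∑ i : Fin k, (if i.val < n % k then n / k + 1 else n / k) = n := by
    rw [Finset.sum_ite, Finset.sum_const, Finset.sum_const, hc, hc2, smul_eq_mul, smul_eq_mul]
    have := Nat.div_add_mod n k
    have h2 : (n % k) * (n / k + 1) + (k - n % k) * (n / k) = k * (n / k) + n % k := by
      obtain ⟨z, hz⟩ := Nat.exists_eq_add_of_lt hsk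
      have : k - n % k = z + 1 := by omega
      rw [this]
      nlinarith
    rw [h2, this]
  have h2 : ∏ i : Fin k, (if i.val < n % k then n / k + 1 else n / k).factorial =
      (n / k + 1).factorial ^ (n % k) * (n / k).factorial ^ (k - n % k) := by
    have h3 : ∀ i : Fin k, (if i.val < n % k then n / k + 1 else n / k).factorial =
        if i.val < n % k then (n / k + 1).factorial else (n / k).factorial := by
      intro i; split_ifs <;> rfl
    rw [Finset.prod_congr rfl fun i _ => h3 i, Finset.prod_ite, Finset.prod_const,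
      Finset.prod_const, hc, hc2]
  rw [h1, h2]

end Pool.Agent.R859.BM
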